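import Pool.Agent.W565.EC.Newt

/-!
# EC project: classification of limits of minimal degree (`S_class`), Theorem A (`S_A`),
integral translations (`S_r2i`)
-/

set_option autoImplicit false

namespace Pool.Agent.W565.EC

open MvPolynomial Filter Topology
open Pool.Agent.W996.EC

variable {n : ℕ}

theorem exists_v (l : Fin n → ℝ) (hl : l ≠ 0) : ∃ v : Fin n → ℝ, dot l v = 1 := by
  have h : (∑ i, l i * l i) ≠ 0 := by
    intro h
    apply hl
    funext i
    exact mul_self_eq_zero.1 ((Finset.sum_eq_zero_iff_of_nonneg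
      (fun i _ => mul_self_nonneg (l i))).1 h i (Finset.mem_univ i))
  refine ⟨fun i => l i / ∑ j, l j * l j, ?_⟩
  unfold dot
  simp_rw [← mul_div_assoc]
  rw [← Finset.sum_div, div_self h]

theorem eval_aeval_lin (l : Fin n → ℝ) (g : Polynomial ℂ) (x : Fin n → ℂ) :
    eval x (Polynomial.aeval (lin l) g) = g.eval (∑ i, (l i : ℂ) * x i) := by
  rw [Polynomial.aeval_def, Polynomial.hom_eval₂, eval_lin]
  have : (eval x).comp (algebraMap ℂ (MvPolynomial (Fin n) ℂ)) = RingHom.id ℂ := by
    ext; simp [MvPolynomial.algebraMap_eq]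
  rw [this]
  rfl

theorem line_nd (x : Fin n → ℂ) (κ : Fin n → ℝ) (f : MvPolynomial (Fin n) ℂ) :
    (line x (cx κ) f).natDegree ≤ f.totalDegree := by
  rw [Polynomial.natDegree_le_iff_coeff_eq_zero]
  intro J hJ
  rw [line_coeff, iter_zero_of_td κ _ f le_rfl J hJ]
  simp

theorem line_aeval (l v : Fin n → ℝ) (hv : dot l v = 1) (g : Polynomial ℂ) :
    line 0 (cx v) (Polynomial.aeval (lin l) g) = g := by
  apply Polynomial.funext
  intro s
  rw [line_eval, eval_aeval_lin]
  congr 1
  have h : (∑ i, (l i : ℂ) * ((0 : Fin n → ℂ) i + s * cx v i)) = s * (dot l v : ℂ) := by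
    unfold dot cx
    push_cast
    rw [Finset.mul_sum]
    refine Finset.sum_congr rfl fun i _ => ?_
    simp
    ring
  rw [h, hv]
  simp

/-- values on the lines of `Star` -/
theorem star_val (l a κ : Fin n → ℝ) (g : Polynomial ℂ) (ω : ℂ) :
    eval (fun i => (a i : ℂ) * ω + Complex.I * (κ i : ℂ)) (Polynomial.aeval (lin l) g) =
      g.eval ((dot l a : ℂ) * ω + Complex.I * (dot l κ : ℂ)) := by
  rw [eval_aeval_lin]
  congr 1
  unfold dot
  push_cast
  rw [Finset.sum_mul, Finset.mul_sum, ← Finset.sum_add_distrib]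
  refine Finset.sum_congr rfl fun i _ => ?_
  ring

theorem dot_smul (l v : Fin n → ℝ) (c : ℝ) : dot l (fun i => c * v i) = c * dot l v := by
  unfold dot
  rw [Finset.mul_sum]
  refine Finset.sum_congr rfl fun i _ => ?_
  ring

theorem lead_of (e : ℕ) (c : ℂ) (hc : c ≠ 0) (g g1 : Polynomial ℂ)
    (hg : g = Polynomial.C c * Polynomial.X ^ e + g1) (hd : g1.degree < e) :
    g.natDegree = e ∧ g.leadingCoeff = c ∧ g ≠ 0 := by
  have h1 : (Polynomial.C c * Polynomial.X ^ e : Polynomial ℂ).degree = e :=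
    Polynomial.degree_C_mul_X_pow e hc
  have h2 : g.degree = e := by
    rw [hg, Polynomial.degree_add_eq_left_of_degree_lt (by rw [h1]; exact hd), h1]
  have h3 : g.natDegree = e := Polynomial.natDegree_eq_of_degree_eq_some h2
  have h4 : g.leadingCoeff = c := by
    rw [Polynomial.leadingCoeff, h3, hg, Polynomial.coeff_add,
      Polynomial.coeff_eq_zero_of_degree_lt hd]
    simp
  refine ⟨h3, h4, ?_⟩
  intro h
  rw [h, Polynomial.leadingCoeff_zero] at h4
  exact hc h4.symm

/-- univariate limits of minimal degree -/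
theorem univ_case (h0 : S_pt) (h1 : S_clos) (A : Set (Fin n → ℝ)) (P : MvPolynomial (Fin n) ℂ)
    (e : ℕ) (hH : Hyp A P) (hM : MinDeg P e) (l : Fin n → ℝ) (hl : l ≠ 0) (c : ℂ) (hc : c ≠ 0)
    (g g1 : Polynomial ℂ) (hg : g = Polynomial.C c * Polynomial.X ^ e + g1)
    (hd : g1.degree < e) (hq : LimInf P (Polynomial.aeval (lin l) g)) :
    ∃ η : ℝ, g = Polynomial.C c * (Polynomial.X - Polynomial.C (Complex.I * (η : ℂ))) ^ e := by
  obtain ⟨hnd, hlc, hg0⟩ := lead_of e c hc g g1 hg hd
  obtain ⟨v, hv⟩ := exists_v l hl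
  have hStar := hH.2 _ hq
  -- all the roots are purely imaginary
  have hroot : ∀ z, g.eval z = 0 → z.re = 0 := by
    intro z hz
    by_contra hne
    have hex : ∃ a ∈ A, dot l a ≠ 0 ∧ z.re / dot l a < 0 := by
      rcases lt_or_gt_of_ne hne with hlt | hgt
      · have hl' : (fun i => -(l i)) ≠ (0 : Fin n → ℝ) := by
          intro h
          apply hl
          funext i
          have := congrFun h i
          simpa using this
        obtain ⟨a, ha, hneg⟩ := hH.1 _ hl'
        have h2 : dot (fun i => -(l i)) a = -(dot l a) := by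
          unfold dot
          rw [← Finset.sum_neg_distrib]
          refine Finset.sum_congr rfl fun i _ => ?_
          ring
        rw [h2] at hneg
        have h3 : 0 < dot l a := by linarith
        exact ⟨a, ha, h3.ne', div_neg_of_neg_of_pos hlt h3⟩
      · obtain ⟨a, ha, hneg⟩ := hH.1 _ hl
        exact ⟨a, ha, hneg.ne, div_neg_of_pos_of_neg hgt hneg⟩
    obtain ⟨a, ha, hla, hneg⟩ := hex
    have hla' : (dot l a : ℂ) ≠ 0 := by exact_mod_cast hla
    have hκ : dot l (fun i => z.im * v i) = z.im := by rw [dot_smul, hv, mul_one]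
    rcases hStar a ha (fun i => z.im * v i) with h2 | h2
    · apply h2 ((z.re / dot l a : ℝ) : ℂ) (by rw [Complex.ofReal_re]; exact hneg)
      rw [star_val, hκ]
      have : (dot l a : ℂ) * ((z.re / dot l a : ℝ) : ℂ) + Complex.I * (z.im : ℂ) = z := by
        push_cast
        rw [mul_div_cancel₀ _ hla', mul_comm Complex.I, Complex.re_add_im]
      rw [this, hz]
    · apply hg0
      apply Polynomial.funext
      intro w
      have := h2 ((w - Complex.I * (z.im : ℂ)) / (dot l a : ℂ))
      rw [star_val, hκ, mul_div_cancel₀ _ hla', sub_add_cancel] at this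
      rw [this, Polynomial.eval_zero]
  -- a root
  obtain ⟨z, hz⟩ : ∃ z, g.IsRoot z := by
    refine IsAlgClosed.exists_root g ?_
    rw [Polynomial.degree_eq_natDegree hg0, hnd]
    have := hM.1
    exact_mod_cast (by omega : e ≠ 0)
  have hzre := hroot z hz
  have hzI : z = Complex.I * (z.im : ℂ) := by
    conv_lhs => rw [← Complex.re_add_im z, hzre]
    simp
    ring
  obtain ⟨g2, hg2, hnd2⟩ := Polynomial.exists_eq_pow_rootMultiplicity_mul_and_not_dvd g hg0 z
  set μ := g.rootMultiplicity z with hμ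
  have hμ1 : 1 ≤ μ := (Polynomial.rootMultiplicity_pos hg0).2 hz
  have hb : g2.eval z ≠ 0 := fun h => hnd2 (Polynomial.dvd_iff_isRoot.2 h)
  -- rescaling at the root
  have hκ : dot l (fun i => z.im * v i) = z.im := by rw [dot_smul, hv, mul_one]
  have hlim : LimAny (Polynomial.aeval (lin l) g) (C (g2.eval z) * lin l ^ μ) := by
    refine ⟨mul_ne_zero (by rwa [Ne, C_eq_zero]) (pow_ne_zero _ (lin_ne_zero l hl)),
      fun j => ((j : ℝ) + 1)⁻¹, fun _ => fun i => z.im * v i, fun j => ((j : ℂ) + 1) ^ μ,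
      fun j => by positivity, ?_⟩
    refine h0 n (Polynomial.aeval (lin l) g).totalDegree _ _ (fun j => td_C_tr _ _ _ _)
      fun x => ?_
    have h7 : Tendsto (fun j : ℕ => (((j : ℂ) + 1)⁻¹)) atTop (𝓝 0) := by
      have := tendsto_one_div_add_atTop_nhds_zero_nat (𝕜 := ℂ)
      simpa [one_div] using this
    have hval : ∀ j : ℕ, eval x (C (((j : ℂ) + 1) ^ μ) * tr ((j : ℝ) + 1)⁻¹
        (fun i => z.im * v i) (Polynomial.aeval (lin l) g)) =
        (∑ i, (l i : ℂ) * x i) ^ μ *
          g2.eval (((j : ℂ) + 1)⁻¹ * (∑ i, (l i : ℂ) * x i) + z) := by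
      intro j
      have hne : ((j : ℂ) + 1) ≠ 0 := by exact_mod_cast Nat.succ_ne_zero j
      rw [map_mul, eval_C, eval_tr, eval_aeval_lin]
      have h2 : (∑ i, (l i : ℂ) * (((((j : ℝ) + 1)⁻¹ : ℝ) : ℂ) * x i +
          Complex.I * ((z.im * v i : ℝ) : ℂ))) = ((j : ℂ) + 1)⁻¹ * (∑ i, (l i : ℂ) * x i) + z := by
        have h3 : (∑ i, (l i : ℂ) * (((((j : ℝ) + 1)⁻¹ : ℝ) : ℂ) * x i +
            Complex.I * ((z.im * v i : ℝ) : ℂ))) = ((j : ℂ) + 1)⁻¹ * (∑ i, (l i : ℂ) * x i) +
            Complex.I * ((dot l (fun i => z.im * v i) : ℝ) : ℂ) := by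
          unfold dot
          push_cast
          rw [Finset.mul_sum, Finset.mul_sum, ← Finset.sum_add_distrib]
          refine Finset.sum_congr rfl fun i _ => ?_
          ring
        rw [h3, hκ, ← hzI]
      rw [h2, hg2, Polynomial.eval_mul, Polynomial.eval_pow, Polynomial.eval_sub,
        Polynomial.eval_X, Polynomial.eval_C, add_sub_cancel_right, mul_pow, ← mul_assoc,
        ← mul_assoc, ← mul_pow, mul_inv_cancel₀ hne, one_pow, one_mul]
    simp only [hval]
    have h8 : Tendsto (fun j : ℕ => ((j : ℂ) + 1)⁻¹ * (∑ i, (l i : ℂ) * x i) + z) atTop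
        (𝓝 z) := by
      have := (h7.mul_const (∑ i, (l i : ℂ) * x i)).add_const z
      rwa [zero_mul, zero_add] at this
    have h9 : Tendsto (fun j : ℕ => (∑ i, (l i : ℂ) * x i) ^ μ *
        g2.eval (((j : ℂ) + 1)⁻¹ * (∑ i, (l i : ℂ) * x i) + z)) atTop
        (𝓝 ((∑ i, (l i : ℂ) * x i) ^ μ * g2.eval z)) :=
      ((g2.continuous.tendsto z).comp h8).const_mul _
    have h10 : eval x (C (g2.eval z) * lin l ^ μ) =
        (∑ i, (l i : ℂ) * x i) ^ μ * g2.eval z := by
      rw [map_mul, eval_C, map_pow, eval_lin]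
      ring
    rw [h10]
    exact h9
  have hLI : LimInf P (C (g2.eval z) * lin l ^ μ) := (h1 n P _ _).1 hq hlim
  have htd : (C (g2.eval z) * lin l ^ μ).totalDegree = μ :=
    (clin_hom _ l μ).totalDegree hLI.1
  have hle : e ≤ μ := by
    have := hM.2 _ hLI (by omega)
    omega
  have hg20 : g2 ≠ 0 := by
    rintro rfl
    exact hb Polynomial.eval_zero
  have hdeg : g.natDegree = μ + g2.natDegree := by
    conv_lhs => rw [hg2]
    rw [Polynomial.natDegree_mul (pow_ne_zero _ (Polynomial.X_sub_C_ne_zero z)) hg20,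
      Polynomial.natDegree_pow, Polynomial.natDegree_X_sub_C, mul_one]
  have hμe : μ = e := by omega
  have hg2d : g2.natDegree = 0 := by omega
  have hg2c : g2 = Polynomial.C c := by
    rw [Polynomial.eq_C_of_natDegree_eq_zero hg2d]
    congr 1
    have h2 : g.leadingCoeff = g2.leadingCoeff := by
      conv_lhs => rw [hg2]
      rw [Polynomial.leadingCoeff_mul, Polynomial.leadingCoeff_pow,
        Polynomial.leadingCoeff_X_sub_C, one_pow, one_mul]
    rw [hlc, Polynomial.leadingCoeff, hg2d] at h2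
    exact h2.symm
  refine ⟨z.im, ?_⟩
  rw [← hzI, ← hμe, ← hg2c, mul_comm]
  exact hg2

/-- the decomposition of a polynomial of degree `e` whose top form is `C c * lin l ^ e` -/
theorem univ_form (l : Fin n → ℝ) (hl : l ≠ 0) (e : ℕ) (c : ℂ) (s : MvPolynomial (Fin n) ℂ)
    (g : Polynomial ℂ)
    (hg : C c * lin l ^ e + s = Polynomial.aeval (lin l) g) :
    ∃ g1 : Polynomial ℂ, g = Polynomial.C c * Polynomial.X ^ e + g1 ∧
      g1.natDegree ≤ s.totalDegree ∧ s = Polynomial.aeval (lin l) g1 := by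
  obtain ⟨v, hv⟩ := exists_v l hl
  have h1 : C c * lin l ^ e = Polynomial.aeval (lin l) (Polynomial.C c * Polynomial.X ^ e) := by
    rw [map_mul, Polynomial.aeval_C, map_pow, Polynomial.aeval_X]
    rfl
  have h2 : s = Polynomial.aeval (lin l) (g - Polynomial.C c * Polynomial.X ^ e) := by
    rw [map_sub, ← h1, ← hg]
    ring
  refine ⟨g - Polynomial.C c * Polynomial.X ^ e, by ring, ?_, h2⟩
  have h3 := line_nd 0 v s
  rw [h2, line_aeval l v hv] at h3
  rwa [← h2] at h3

/-- no perturbed powers -/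
theorem no_pert (h0 : S_pt) (h1 : S_clos) (h5 : S_newt) (h6 : S_univ) (A : Set (Fin n → ℝ))
    (P : MvPolynomial (Fin n) ℂ) (e : ℕ) (hH : Hyp A P) (hM : MinDeg P e) (l : Fin n → ℝ)
    (hl : l ≠ 0) (c : ℂ) (hc : c ≠ 0) : ∀ (N : ℕ) (r : MvPolynomial (Fin n) ℂ)
    (V : Submodule ℝ (Fin n → ℝ)), (∀ κ ∈ V, dot l κ = 0 ∧ Dk κ r = 0) →
    n < N + Module.finrank ℝ V → r ≠ 0 → r.totalDegree + 2 ≤ e →
    LimInf P (C c * lin l ^ e + r) → False := by
  intro N
  induction N with
  | zero =>
    intro r V hV hN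
    have := Submodule.finrank_le V
    rw [Module.finrank_fin_fun] at this
    omega
  | succ N ih =>
    intro r V hV hN hr htd hLI
    have he := hM.1
    by_cases hex : ∃ κ, dot l κ = 0 ∧ Dk κ r ≠ 0
    · obtain ⟨κ, hκ, hne⟩ := hex
      have hDl : ∀ κ, dot l κ = 0 → Dk κ (C c * lin l ^ e + r) = Dk κ r := by
        intro κ hκ
        rw [Dk_add, Dk_C_mul, Dk_pow κ (lin l) (by rw [Dk_lin, hκ]; simp) e, mul_zero, zero_add]
      obtain ⟨r', hr', htd', hlim, hκ', hall⟩ := h5 n e c l (C c * lin l ^ e + r) κ he hc hl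
        (by rw [add_sub_cancel_left]; omega) hκ (by rw [hDl κ hκ]; exact hne)
      -- the new invariance space
      let V' : Submodule ℝ (Fin n → ℝ) := V ⊔ Submodule.span ℝ {κ}
      have hlin : ∀ (a : ℝ) (x y : Fin n → ℝ) (p : MvPolynomial (Fin n) ℂ),
          Dk (x + a • y) p = Dk x p + C (a : ℂ) * Dk y p := by
        intro a x y p
        unfold Dk
        rw [Finset.mul_sum, ← Finset.sum_add_distrib]
        refine Finset.sum_congr rfl fun i _ => ?_
        simp only [Pi.add_apply, Pi.smul_apply, smul_eq_mul, Complex.ofReal_add,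
          Complex.ofReal_mul, C_add, C_mul]
        ring
      have hdot : ∀ (a : ℝ) (x y : Fin n → ℝ), dot l (x + a • y) = dot l x + a * dot l y := by
        intro a x y
        unfold dot
        rw [Finset.mul_sum, ← Finset.sum_add_distrib]
        refine Finset.sum_congr rfl fun i _ => ?_
        simp only [Pi.add_apply, Pi.smul_apply, smul_eq_mul]
        ring
      have hV' : ∀ κ'' ∈ V', dot l κ'' = 0 ∧ Dk κ'' r' = 0 := by
        intro κ'' hk
        obtain ⟨x, hx, y, hy, rfl⟩ := Submodule.mem_sup.1 hk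
        obtain ⟨a, rfl⟩ := Submodule.mem_span_singleton.1 hy
        have hx' := hV x hx
        have hx2 : Dk x r' = 0 := hall x hx'.1 (by rw [hDl x hx'.1]; exact hx'.2)
        refine ⟨?_, ?_⟩
        · rw [hdot, hx'.1, hκ]
          ring
        · rw [hlin, hx2, hκ']
          simp
      have hlt : V < V' := by
        refine lt_of_le_of_ne le_sup_left ?_
        intro h
        have : κ ∈ V := by
          rw [h]
          exact Submodule.mem_sup_right (Submodule.mem_span_singleton_self κ)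
        exact hne (hV κ this).2
      have hfr := Submodule.finrank_lt_finrank_of_lt hlt
      refine ih r' V' hV' (by omega) hr' htd' ?_
      refine (h1 n P _ _).1 hLI ?_
      obtain ⟨hz, lam, k, cc, hp, _, hcv⟩ := hlim
      exact ⟨hz, lam, k, cc, hp, hcv⟩
    · push Not at hex
      have hDl : ∀ κ, dot l κ = 0 → Dk κ (C c * lin l ^ e + r) = 0 := by
        intro κ hκ
        rw [Dk_add, Dk_C_mul, Dk_pow κ (lin l) (by rw [Dk_lin, hκ]; simp) e, mul_zero, zero_add]
        exact hex κ hκ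
      obtain ⟨g, hg⟩ := h6 n l _ hl hDl
      obtain ⟨g1, hg1, hnd, hs⟩ := univ_form l hl e c r g hg
      have hdeg : g1.degree < e := by
        refine lt_of_le_of_lt Polynomial.degree_le_natDegree ?_
        exact_mod_cast (by omega : g1.natDegree < e)
      rw [hg] at hLI
      obtain ⟨η, hη⟩ := univ_case h0 h1 A P e hH hM l hl c hc g g1 hg1 hdeg hLI
      -- the coefficient of `X ^ (e - 1)`
      have hco : g.coeff (e - 1) = 0 := by
        rw [hg1, Polynomial.coeff_add, Polynomial.coeff_C_mul, Polynomial.coeff_X_pow,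
          if_neg (by omega), mul_zero, zero_add]
        exact Polynomial.coeff_eq_zero_of_natDegree_lt (by omega)
      have hco2 : g.coeff (e - 1) = c * (-(Complex.I * (η : ℂ)) * e) := by
        rw [hη, Polynomial.coeff_C_mul, sub_eq_add_neg, ← Polynomial.C_neg,
          Polynomial.coeff_X_add_C_pow]
        have h2 : e - (e - 1) = 1 := by omega
        rw [h2, pow_one]
        have h3 : e.choose (e - 1) = e := by
          rw [Nat.choose_symm he, Nat.choose_one_right]
        rw [h3]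
      have hη0 : (η : ℂ) = 0 := by
        rw [hco2] at hco
        have he0 : (e : ℂ) ≠ 0 := by exact_mod_cast (by omega : e ≠ 0)
        have h2 := (mul_eq_zero.1 hco).resolve_left hc
        have h3 := (mul_eq_zero.1 h2).resolve_right he0
        have h4 := neg_eq_zero.1 h3
        exact (mul_eq_zero.1 h4).resolve_left Complex.I_ne_zero
      rw [hη0, mul_zero, Polynomial.C_0, sub_zero] at hη
      have hg10 : g1 = 0 := by
        have : g1 = g - Polynomial.C c * Polynomial.X ^ e := by rw [hg1]; ring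
        rw [this, hη, sub_self]
      rw [hg10, map_zero] at hs
      exact hr hs

theorem t_class (h0 : S_pt) (h1 : S_clos) (h2 : S_top) (h3 : S_hom) (h4 : S_pow) (h5 : S_newt)
    (h6 : S_univ) : S_class := by
  intro n A P e hH hM
  have he := hM.1
  have toAny : ∀ p q : MvPolynomial (Fin n) ℂ, LimInf p q → LimAny p q := by
    rintro p q ⟨hz, lam, k, cc, hp, _, hcv⟩
    exact ⟨hz, lam, k, cc, hp, hcv⟩
  -- the main dichotomy
  have main : ∀ p : MvPolynomial (Fin n) ℂ, (LimInf P p ∨ p = P) → p.totalDegree = e →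
      ∃ (c : ℂ) (l : Fin n → ℝ) (g g1 : Polynomial ℂ), c ≠ 0 ∧ l ≠ 0 ∧
        p = Polynomial.aeval (lin l) g ∧ g = Polynomial.C c * Polynomial.X ^ e + g1 ∧
        g1.degree < e := by
    intro p hp htd
    have hp0 : p ≠ 0 := by
      rintro rfl
      rw [totalDegree_zero] at htd
      omega
    have htrans : ∀ q, LimInf p q → LimInf P q := by
      intro q hq
      rcases hp with hp | hp
      · exact (h1 n P p q).1 hp (toAny _ _ hq)
      · rw [← hp]
        exact hq
    obtain ⟨ht1, ht2⟩ := h2 n p hp0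
    rw [htd] at ht1 ht2
    have hf := htrans _ ht1
    have hfh : (homogeneousComponent e p).IsHomogeneous e :=
      homogeneousComponent_isHomogeneous e p
    obtain ⟨c, l, hc, hl, hfe⟩ := h4 n A e _ he ht2 hfh
      (fun κ hκ => h3 n P e _ hM hf hfh κ hκ) hH.1 (hH.2 _ hf)
    have hs : (p - C c * lin l ^ e).totalDegree < e := by
      have : (p - C c * lin l ^ e).totalDegree ≤ e - 1 := by
        rw [td_le_iff]
        intro d hd
        rw [← hfe, coeff_sub, coeff_homogeneousComponent]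
        split_ifs with h7
        · exact sub_self _
        · rw [sub_zero]
          exact (td_le_iff p e).1 htd.le d (by omega)
      omega
    have hall : ∀ κ : Fin n → ℝ, dot l κ = 0 → Dk κ p = 0 := by
      intro κ hκ
      by_contra hne
      obtain ⟨r, hr, htr, hlim, -, -⟩ := h5 n e c l p κ he hc hl hs hκ hne
      exact no_pert h0 h1 h5 h6 A P e hH hM l hl c hc (n + 1) r ⊥
        (fun κ hκ => by
          rw [Submodule.mem_bot] at hκ
          subst hκ
          refine ⟨?_, ?_⟩
          · unfold dot; simp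
          · unfold Dk; simp)
        (by omega) hr htr (htrans _ hlim)
    obtain ⟨g, hg⟩ := h6 n l p hl hall
    have hg' : C c * lin l ^ e + (p - C c * lin l ^ e) = Polynomial.aeval (lin l) g := by
      rw [← hg]; ring
    obtain ⟨g1, hg1, hnd, -⟩ := univ_form l hl e c _ g hg'
    refine ⟨c, l, g, g1, hc, hl, hg, hg1, ?_⟩
    refine lt_of_le_of_lt Polynomial.degree_le_natDegree ?_
    exact_mod_cast (by omega : g1.natDegree < e)
  refine ⟨?_, ?_⟩
  · intro p hp htd
    obtain ⟨c, l, g, g1, hc, hl, hg, hg1, hd⟩ := main p (Or.inl hp) htd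
    rw [hg] at hp
    obtain ⟨η, hη⟩ := univ_case h0 h1 A P e hH hM l hl c hc g g1 hg1 hd hp
    refine ⟨c, l, η, hc, hl, ?_⟩
    rw [hg, hη, map_mul, Polynomial.aeval_C, map_pow, map_sub, Polynomial.aeval_X,
      Polynomial.aeval_C]
    rfl
  · intro htd
    obtain ⟨c, l, g, g1, hc, hl, hg, -, -⟩ := main P (Or.inr rfl) htd
    exact ⟨l, g, hl, hg⟩

/-! ### Theorem A -/

theorem t_A (h1 : S_clos) (h2 : S_top) (h3 : S_class) (h4 : S_ek) : S_A := by
  classical
  intro n A P hH hP
  have hP0 : P ≠ 0 := by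
    rintro rfl
    rw [totalDegree_zero] at hP
    omega
  have hself : LimOne P P := by
    refine ⟨hP0, fun _ => 0, fun _ => 1, ⟨P.totalDegree, fun j => td_C_tr _ _ _ _⟩, fun m => ?_⟩
    have : (fun _ : ℕ => coeff m (C 1 * tr 1 0 P)) = fun _ => coeff m P := by
      funext j
      rw [tr_one_zero, C_1, one_mul]
    show Tendsto (fun _ : ℕ => coeff m (C 1 * tr 1 0 P)) atTop (𝓝 (coeff m P))
    rw [this]
    exact tendsto_const_nhds
  have hex : ∃ d, ∃ P1, LimOne P P1 ∧ 1 ≤ P1.totalDegree ∧ P1.totalDegree = d :=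
    ⟨_, P, hself, hP, rfl⟩
  obtain ⟨P1, hL1, hd1, hdd⟩ := Nat.find_spec hex
  have hmin : ∀ P2, LimOne P P2 → 1 ≤ P2.totalDegree → P1.totalDegree ≤ P2.totalDegree := by
    intro P2 h5 h6
    rw [hdd]
    exact Nat.find_min' hex ⟨P2, h5, h6, rfl⟩
  have hH1 : Hyp A P1 := ⟨hH.1, fun q hq => hH.2 q ((h1 n P P1 q).2.1 hL1 hq)⟩
  obtain ⟨ht1, ht2⟩ := h2 n P1 hL1.1
  have htd : (homogeneousComponent P1.totalDegree P1).totalDegree = P1.totalDegree :=
    (homogeneousComponent_isHomogeneous _ P1).totalDegree ht2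
  have hex2 : ∃ d, 1 ≤ d ∧ ∃ q, LimInf P1 q ∧ q.totalDegree = d :=
    ⟨_, hd1, _, ht1, htd⟩
  obtain ⟨he1, q, hq, hqd⟩ := Nat.find_spec hex2
  set e := Nat.find hex2 with he
  have hM : MinDeg P1 e := ⟨he1, fun q' hq' h6 => Nat.find_min' hex2 ⟨h6, q', hq', rfl⟩⟩
  have hle : e ≤ P1.totalDegree := Nat.find_min' hex2 ⟨hd1, _, ht1, htd⟩
  rcases Nat.lt_or_ge e P1.totalDegree with hlt | hge
  · obtain ⟨P2, h5, h6, h7⟩ := h4 n A P1 e hH1 hM ⟨q, hq, hqd⟩ hlt
    have := hmin P2 ((h1 n P P1 P2).2.2 hL1 h5) h6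
    omega
  · obtain ⟨l, f, hl, hf⟩ := (h3 n A P1 e hH1 hM).2 (by omega)
    refine ⟨l, f, hl, ?_, by rw [← hf]; exact hL1⟩
    by_contra hcon
    have hf0 : f.natDegree = 0 := by omega
    rw [Polynomial.eq_C_of_natDegree_eq_zero hf0, Polynomial.aeval_C] at hf
    have : P1.totalDegree = 0 := by
      rw [hf]
      exact totalDegree_C _
    omega

/-! ### integral translations -/

theorem t_r2i (h : S_join) : S_r2i := by
  intro n P l f hf hL
  obtain ⟨-, k, c, hconv⟩ := hL
  have hpi : (0 : ℝ) < 2 * Real.pi := by positivity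
  set M : ℕ → Fin n → ℤ := fun j i => ⌊k j i / (2 * Real.pi)⌋ with hM
  set u : ℕ → Fin n → ℝ := fun j i => k j i - 2 * Real.pi * (M j i : ℝ) with hu
  have hmem : ∀ j, u j ∈ Set.Icc (0 : Fin n → ℝ) (fun _ => 2 * Real.pi) := by
    intro j
    rw [Set.mem_Icc, Pi.le_def, Pi.le_def]
    refine ⟨fun i => ?_, fun i => ?_⟩
    · have h1 := Int.floor_le (k j i / (2 * Real.pi))
      rw [le_div_iff₀ hpi] at h1
      show 0 ≤ k j i - 2 * Real.pi * ((⌊k j i / (2 * Real.pi)⌋ : ℤ) : ℝ)
      linarith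
    · have h1 := (Int.lt_floor_add_one (k j i / (2 * Real.pi))).le
      rw [div_le_iff₀ hpi] at h1
      show k j i - 2 * Real.pi * ((⌊k j i / (2 * Real.pi)⌋ : ℤ) : ℝ) ≤ 2 * Real.pi
      linarith
  obtain ⟨u0, -, φ, hφ, hlim⟩ := isCompact_Icc.tendsto_subseq hmem
  have hsub : Conv (fun j => C (c (φ j)) * tr 1 (k (φ j)) P) (Polynomial.aeval (lin l) f) := by
    obtain ⟨⟨d, hd⟩, hc⟩ := hconv
    exact ⟨⟨d, fun j => hd (φ j)⟩, fun m => (hc m).comp hφ.tendsto_atTop⟩
  have hj := h n _ _ hsub (fun _ => 1) 1 (fun j => -(u (φ j))) (-u0) (fun _ => 1) 1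
    tendsto_const_nhds hlim.neg tendsto_const_nhds
  set a : ℂ := Complex.I * (dot l u0 : ℂ) with ha
  refine ⟨fun j => M (φ j), fun j => c (φ j), f.comp (Polynomial.X - Polynomial.C a), ?_, ?_⟩
  · rw [Polynomial.natDegree_comp, Polynomial.natDegree_X_sub_C, mul_one]
    exact hf
  · have e1 : (fun j => C (c (φ j)) * trZ (M (φ j)) P) = fun j => C (1 : ℂ) *
        tr 1 (-(u (φ j))) (C (c (φ j)) * tr 1 (k (φ j)) P) := by
      funext j
      rw [tr_C_mul, tr_tr, C_1, one_mul]
      unfold trZ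
      congr 2
      · norm_num
      · funext i
        show 2 * Real.pi * (M (φ j) i : ℝ) = 1 * (-(k (φ j) i - 2 * Real.pi * (M (φ j) i : ℝ))) +
          k (φ j) i
        ring
    have e2 : Polynomial.aeval (lin l) (f.comp (Polynomial.X - Polynomial.C a)) =
        C (1 : ℂ) * tr 1 (-u0) (Polynomial.aeval (lin l) f) := by
      apply MvPolynomial.funext
      intro x
      rw [eval_aeval_lin, C_1, one_mul, eval_tr, eval_aeval_lin,
        Polynomial.eval_comp, Polynomial.eval_sub, Polynomial.eval_X, Polynomial.eval_C]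
      congr 1
      rw [ha]
      unfold dot
      push_cast
      rw [Finset.mul_sum, ← Finset.sum_sub_distrib]
      refine Finset.sum_congr rfl fun i _ => ?_
      rw [Pi.neg_apply]
      push_cast
      ring
    rw [e1, e2]
    exact hj

end Pool.Agent.W565.EC
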