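import Pool.Agent.W565.EC.Lib

/-!
# EC project: closure properties of the limit sets (`S_clos`), top forms (`S_top`, `S_hom`)
-/

set_option autoImplicit false

namespace Pool.Agent.W565.EC

open MvPolynomial Filter Topology
open Pool.Agent.W996.EC

variable {n : ℕ}

theorem tr_C_mul (lam : ℝ) (k : Fin n → ℝ) (c : ℂ) (P : MvPolynomial (Fin n) ℂ) :
    tr lam k (C c * P) = C c * tr lam k P := by
  rw [tr_mul, tr_C]

theorem td_C_tr (c : ℂ) (lam : ℝ) (k : Fin n → ℝ) (P : MvPolynomial (Fin n) ℂ) :
    (C c * tr lam k P).totalDegree ≤ P.totalDegree := by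
  refine (totalDegree_mul _ _).trans ?_
  rw [totalDegree_C, zero_add]
  exact totalDegree_tr_le _ _ _

/-- composition of limits -/
theorem comp_lim (h1 : S_diag) (h2 : S_join) (P q r : MvPolynomial (Fin n) ℂ)
    (lam lam' : ℕ → ℝ) (k k' : ℕ → Fin n → ℝ) (c c' : ℕ → ℂ)
    (hq : Conv (fun j => C (c j) * tr (lam j) (k j) P) q)
    (hr : Conv (fun i => C (c' i) * tr (lam' i) (k' i) q) r)
    (G : ℕ → ℕ → Prop) (hG : ∀ i, ∀ᶠ j in atTop, G i j) :
    ∃ φ : ℕ → ℕ, (∀ i, G i (φ i)) ∧
      Conv (fun i => C (c' i * c (φ i)) * tr (lam (φ i) * lam' i)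
        (fun x => lam (φ i) * k' i x + k (φ i) x) P) r := by
  obtain ⟨φ, h3, h4⟩ := h1 n P.totalDegree
    (fun i j => C (c' i) * tr (lam' i) (k' i) (C (c j) * tr (lam j) (k j) P))
    (fun i => C (c' i) * tr (lam' i) (k' i) q) r
    (fun i j => (td_C_tr _ _ _ _).trans (td_C_tr _ _ _ _))
    (fun i => h2 n _ _ hq (fun _ => lam' i) (lam' i) (fun _ => k' i) (k' i) (fun _ => c' i) (c' i)
      tendsto_const_nhds tendsto_const_nhds tendsto_const_nhds) hr G hG
  refine ⟨φ, h3, ?_⟩
  have e : (fun i => C (c' i * c (φ i)) * tr (lam (φ i) * lam' i)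
        (fun x => lam (φ i) * k' i x + k (φ i) x) P) =
      fun i => C (c' i) * tr (lam' i) (k' i) (C (c (φ i)) * tr (lam (φ i)) (k (φ i)) P) := by
    funext i
    rw [tr_C_mul, tr_tr, C_mul]
    ring
  rw [e]
  exact h4

theorem t_clos (h1 : S_diag) (h2 : S_join) : S_clos := by
  intro n P q r
  refine ⟨?_, ?_, ?_⟩
  · rintro ⟨-, lam, k, c, hlam, hinf, hq⟩ ⟨hr0, lam', k', c', hlam', hr⟩
    obtain ⟨φ, h3, h4⟩ := comp_lim h1 h2 P q r lam lam' k k' c c' hq hr
      (fun i j => (i : ℝ) ≤ lam j * lam' i) (fun i =>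
        (hinf.atTop_mul_const (hlam' i)).eventually_ge_atTop _)
    refine ⟨hr0, _, _, _, fun i => mul_pos (hlam (φ i)) (hlam' i), ?_, h4⟩
    exact tendsto_atTop_mono h3 tendsto_natCast_atTop_atTop
  · rintro ⟨-, k, c, hq⟩ ⟨hr0, lam', k', c', hlam', hinf, hr⟩
    obtain ⟨φ, h3, h4⟩ := comp_lim h1 h2 P q r (fun _ => 1) lam' k k' c c' hq hr
      (fun i j => True) (fun i => Eventually.of_forall fun _ => trivial)
    refine ⟨hr0, _, _, _, fun i => mul_pos one_pos (hlam' i), ?_, h4⟩
    simpa using hinf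
  · rintro ⟨-, k, c, hq⟩ ⟨hr0, k', c', hr⟩
    obtain ⟨φ, h3, h4⟩ := comp_lim h1 h2 P q r (fun _ => 1) (fun _ => 1) k k' c c' hq hr
      (fun i j => True) (fun i => Eventually.of_forall fun _ => trivial)
    refine ⟨hr0, fun i x => k' i x + k (φ i) x, fun i => c' i * c (φ i), ?_⟩
    simp only [one_mul] at h4
    exact h4

/-! ### the top form -/

theorem coeff_tr_zero (lam : ℝ) (P : MvPolynomial (Fin n) ℂ) (m : Fin n →₀ ℕ) :
    coeff m (tr lam 0 P) = (lam : ℂ) ^ m.degree * coeff m P := by
  induction P using MvPolynomial.induction_on' with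
  | add p q hp hq => rw [tr_add, coeff_add, coeff_add, hp, hq]; ring
  | monomial u a =>
    have h : tr lam 0 (monomial u a) = C ((lam : ℂ) ^ u.degree) * monomial u a := by
      apply MvPolynomial.funext
      intro x
      rw [eval_tr, map_mul, eval_C, eval_monomial, eval_monomial]
      simp only [Pi.zero_apply, Complex.ofReal_zero, mul_zero, add_zero]
      rw [Finsupp.prod_fintype _ _ (fun _ => pow_zero _),
        Finsupp.prod_fintype _ _ (fun _ => pow_zero _)]
      simp_rw [mul_pow]
      rw [Finset.prod_mul_distrib, Finset.prod_pow_eq_pow_sum, Finsupp.degree_eq_sum]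
      ring
    rw [h, coeff_C_mul, coeff_monomial]
    split_ifs with h2
    · rw [h2]
    · ring

theorem hc_top_ne_zero (P : MvPolynomial (Fin n) ℂ) (hP : P ≠ 0) :
    homogeneousComponent P.totalDegree P ≠ 0 := by
  intro h
  have hs : P.support.Nonempty := by
    rw [Finset.nonempty_iff_ne_empty]
    intro h2
    exact hP (support_eq_empty.1 h2)
  obtain ⟨d, hd, hd2⟩ := Finset.exists_mem_eq_sup P.support hs (fun s => s.sum fun _ e => e)
  have h3 : d.degree = P.totalDegree := by
    unfold totalDegree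
    rw [hd2, Finsupp.degree_eq_sum, Finsupp.sum_fintype _ _ (fun _ => rfl)]
  have h4 : coeff d (homogeneousComponent P.totalDegree P) = coeff d P := by
    rw [coeff_homogeneousComponent, if_pos h3]
  rw [h, coeff_zero] at h4
  exact mem_support_iff.1 hd h4.symm

theorem t_top : S_top := by
  intro n P hP
  refine ⟨⟨hc_top_ne_zero P hP, fun j => (j : ℝ) + 1, fun _ => 0,
    fun j => (((j : ℂ) + 1) ^ P.totalDegree)⁻¹, fun j => by positivity, ?_, ?_⟩,
    hc_top_ne_zero P hP⟩
  · exact tendsto_atTop_add_const_right _ _ tendsto_natCast_atTop_atTop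
  · refine ⟨⟨P.totalDegree, fun j => td_C_tr _ _ _ _⟩, fun m => ?_⟩
    rw [coeff_homogeneousComponent]
    have hne : ∀ j : ℕ, ((j : ℂ) + 1) ≠ 0 := fun j => by exact_mod_cast Nat.succ_ne_zero j
    split_ifs with hm
    · have : ∀ j : ℕ, coeff m (C ((((j : ℂ) + 1) ^ P.totalDegree)⁻¹) *
          tr ((j : ℝ) + 1) 0 P) = coeff m P := by
        intro j
        rw [coeff_C_mul, coeff_tr_zero, hm]
        push_cast
        have := hne j
        field_simp
      simp only [this]
      exact tendsto_const_nhds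
    · rcases lt_or_gt_of_ne hm with hlt | hgt
      · have : ∀ j : ℕ, coeff m (C ((((j : ℂ) + 1) ^ P.totalDegree)⁻¹) *
            tr ((j : ℝ) + 1) 0 P) =
            (((j : ℂ) + 1)⁻¹) ^ (P.totalDegree - m.degree) * coeff m P := by
          intro j
          rw [coeff_C_mul, coeff_tr_zero]
          push_cast
          have h5 := hne j
          have h6 : P.totalDegree = (P.totalDegree - m.degree) + m.degree := by omega
          conv_lhs => rw [h6]
          rw [pow_add, inv_pow]
          field_simp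
        simp only [this]
        have h7 : Tendsto (fun j : ℕ => (((j : ℂ) + 1)⁻¹)) atTop (𝓝 0) := by
          have := tendsto_one_div_add_atTop_nhds_zero_nat (𝕜 := ℂ)
          simpa [one_div] using this
        have h8 := (h7.pow (P.totalDegree - m.degree)).mul_const (coeff m P)
        rw [zero_pow (by omega), zero_mul] at h8
        exact h8
      · have h5 : coeff m P = 0 := (td_le_iff P P.totalDegree).1 le_rfl m hgt
        have : ∀ j : ℕ, coeff m (C ((((j : ℂ) + 1) ^ P.totalDegree)⁻¹) *
            tr ((j : ℝ) + 1) 0 P) = 0 := by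
          intro j
          rw [coeff_C_mul, coeff_tr_zero, h5, mul_zero, mul_zero]
        simp only [this]
        exact tendsto_const_nhds

/-! ### forms of minimal degree -/

theorem t_hom (h : S_clos) (h' : S_pt) : S_hom := by
  intro n P e f hmin hf hhom κ hκ
  by_contra hne
  have hf0 : f ≠ 0 := hf.1
  have htd : f.totalDegree ≤ e := hhom.totalDegree_le
  -- the largest `J` with nonzero derivative
  have hex : ∃ J, (Dk κ)^[J] f ≠ 0 ∧ J ≤ e ∧ ∀ J', J < J' → (Dk κ)^[J'] f = 0 := by
    classical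
    let S := (Finset.range (e + 1)).filter fun J => (Dk κ)^[J] f ≠ 0
    have hS : S.Nonempty := ⟨0, Finset.mem_filter.2 ⟨Finset.mem_range.2 (by omega), hf0⟩⟩
    refine ⟨S.max' hS, (Finset.mem_filter.1 (S.max'_mem hS)).2, ?_, ?_⟩
    · have := Finset.mem_range.1 (Finset.mem_filter.1 (S.max'_mem hS)).1
      omega
    · intro J' hJ'
      by_contra h3
      by_cases h4 : J' ≤ e
      · have := S.le_max' J' (Finset.mem_filter.2 ⟨Finset.mem_range.2 (by omega), h3⟩)
        omega
      · exact h3 (iter_zero_of_td κ e f htd J' (by omega))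
  obtain ⟨J, hJ, hJe, hJmax⟩ := hex
  have hJ1 : 1 ≤ J := by
    by_contra h3
    have : J = 0 := by omega
    subst this
    exact hne (hJmax 1 one_pos)
  -- the limit
  set g : MvPolynomial (Fin n) ℂ := C (Complex.I ^ J * ((J.factorial : ℂ))⁻¹) * (Dk κ)^[J] f
    with hg
  have hc0 : Complex.I ^ J * ((J.factorial : ℂ))⁻¹ ≠ 0 := by
    refine mul_ne_zero (pow_ne_zero _ Complex.I_ne_zero) (inv_ne_zero ?_)
    exact_mod_cast Nat.factorial_ne_zero J
  have hg0 : g ≠ 0 := by
    rw [hg]
    exact mul_ne_zero (by rwa [Ne, C_eq_zero]) hJ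
  have hghom : g.IsHomogeneous (e - J) := (isHom_iter κ J f e hhom).C_mul _
  have hlim : LimAny f g := by
    refine ⟨hg0, fun _ => 1, fun j => fun i => ((j : ℝ) + 1) * κ i,
      fun j => (((j : ℂ) + 1) ^ J)⁻¹, fun _ => one_pos, ?_⟩
    refine h' n f.totalDegree _ _ (fun j => td_C_tr _ _ _ _) fun x => ?_
    have hterm : ∀ j : ℕ, eval x (C ((((j : ℂ) + 1) ^ J)⁻¹) *
        tr 1 (fun i => ((j : ℝ) + 1) * κ i) f) =
        ∑ i ∈ Finset.range (J + 1), (((j : ℂ) + 1)⁻¹) ^ (J - i) *
          (Complex.I ^ i * (((i.factorial : ℂ))⁻¹ * eval x ((Dk κ)^[i] f))) := by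
      intro j
      rw [map_mul, eval_C, eval_tr]
      have e1 : (fun i => ((1 : ℝ) : ℂ) * x i + Complex.I * ((((j : ℝ) + 1) * κ i : ℝ) : ℂ)) =
          fun i => x i + (Complex.I * ((j : ℂ) + 1)) * cx κ i := by
        funext i
        unfold cx
        push_cast
        ring
      rw [e1, taylor x κ f e htd, Finset.mul_sum]
      have hne : ((j : ℂ) + 1) ≠ 0 := by exact_mod_cast Nat.succ_ne_zero j
      symm
      have hsub : Finset.range (J + 1) ⊆ Finset.range (e + 1) := by
        intro a ha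
        rw [Finset.mem_range] at ha ⊢
        omega
      rw [← Finset.sum_subset hsub]
      · refine Finset.sum_congr rfl fun i hi => ?_
        rw [Finset.mem_range] at hi
        have e2 : (((j : ℂ) + 1) ^ J)⁻¹ = (((j : ℂ) + 1)⁻¹) ^ (J - i) * ((((j : ℂ) + 1) ^ i)⁻¹) := by
          rw [inv_pow, ← mul_inv, ← pow_add]
          congr 2
          omega
        rw [e2, mul_pow]
        field_simp
      · intro i _ hi
        rw [Finset.mem_range] at hi
        rw [hJmax i (by omega)]
        simp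
    simp only [hterm]
    have hlimterm : ∀ i ∈ Finset.range (J + 1), Tendsto (fun j : ℕ => (((j : ℂ) + 1)⁻¹) ^ (J - i) *
        (Complex.I ^ i * (((i.factorial : ℂ))⁻¹ * eval x ((Dk κ)^[i] f)))) atTop
        (𝓝 (if i = J then eval x g else 0)) := by
      intro i hi
      rw [Finset.mem_range] at hi
      have h7 : Tendsto (fun j : ℕ => (((j : ℂ) + 1)⁻¹)) atTop (𝓝 0) := by
        have := tendsto_one_div_add_atTop_nhds_zero_nat (𝕜 := ℂ)
        simpa [one_div] using this
      split_ifs with hiJ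
      · subst hiJ
        rw [hg, map_mul, eval_C]
        simp only [Nat.sub_self, pow_zero, one_mul]
        have : Complex.I ^ i * (((i.factorial : ℂ))⁻¹ * eval x ((Dk κ)^[i] f)) =
            Complex.I ^ i * ((i.factorial : ℂ))⁻¹ * eval x ((Dk κ)^[i] f) := by ring
        rw [this]
        exact tendsto_const_nhds
      · have h8 := (h7.pow (J - i)).mul_const
          (Complex.I ^ i * (((i.factorial : ℂ))⁻¹ * eval x ((Dk κ)^[i] f)))
        rw [zero_pow (by omega), zero_mul] at h8
        exact h8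
    have h9 := tendsto_finsetSum _ hlimterm
    rw [Finset.sum_ite_eq' (Finset.range (J + 1)) J, if_pos (Finset.mem_range.2 (by omega))] at h9
    exact h9
  have hLI : LimInf P g := (h n P f g).1 hf hlim
  -- the degree of `g` is `e - J`
  by_cases hJeq : J = e
  · subst hJeq
    -- the constant is zero
    have ht := taylor (n := n) 0 κ f J htd 1
    have h0 : ∀ i ∈ Finset.range (J + 1), i ≠ J →
        (1 : ℂ) ^ i * (((i.factorial : ℂ))⁻¹ * eval 0 ((Dk κ)^[i] f)) = 0 := by
      intro i hi hne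
      rw [Finset.mem_range] at hi
      have h3 := isHom_iter κ i f J hhom
      have h4 := hom_eval _ _ h3 0 0
      simp only [zero_mul] at h4
      rw [zero_pow (by omega), zero_mul] at h4
      have h5 : eval (0 : Fin n → ℂ) ((Dk κ)^[i] f) = 0 := h4
      rw [h5]
      ring
    rw [Finset.sum_eq_single J (fun i hi hne => h0 i hi hne) (fun h => absurd
      (Finset.mem_range.2 (by omega)) h)] at ht
    have h1 : (fun i => (0 : Fin n → ℂ) i + 1 * cx κ i) = cx κ := by
      funext i
      simp
    rw [h1, hκ] at ht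
    have h2 : eval (0 : Fin n → ℂ) ((Dk κ)^[J] f) = 0 := by
      have hfac : ((J.factorial : ℂ))⁻¹ ≠ 0 :=
        inv_ne_zero (by exact_mod_cast Nat.factorial_ne_zero J)
      rw [one_pow, one_mul] at ht
      exact (mul_eq_zero.1 ht.symm).resolve_left hfac
    have h3 := isHom_iter κ J f J hhom
    rw [Nat.sub_self] at h3
    have h4 : ((Dk κ)^[J] f).totalDegree = 0 := Nat.le_zero.1 h3.totalDegree_le
    rw [totalDegree_eq_zero_iff_eq_C] at h4
    apply hJ
    rw [h4] at h2 ⊢
    rw [eval_C] at h2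
    rw [h2, C_0]
  · have h3 : g.totalDegree = e - J := hghom.totalDegree hg0
    have := hmin.2 g hLI (by omega)
    omega

end Pool.Agent.W565.EC
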