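import Pool.Agent.W996.EC.Stm

/-!
# EC project: directional derivatives, Taylor formula
-/

set_option autoImplicit false

namespace Pool.Agent.W565.EC

open MvPolynomial Filter Topology
open Pool.Agent.W996.EC

variable {n : ℕ}

theorem td_le_iff (p : MvPolynomial (Fin n) ℂ) (N : ℕ) :
    p.totalDegree ≤ N ↔ ∀ d : Fin n →₀ ℕ, N < d.degree → coeff d p = 0 := by
  constructor
  · intro h d hd
    by_contra hne
    have h1 : d ∈ p.support := mem_support_iff.2 hne
    have h2 := le_totalDegree h1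
    have h3 : d.degree = d.sum fun _ e => e := by
      rw [Finsupp.degree_eq_sum, Finsupp.sum_fintype _ _ (fun _ => rfl)]
    omega
  · intro h
    unfold totalDegree
    refine Finset.sup_le fun d hd => ?_
    by_contra hcon
    have h3 : d.degree = d.sum fun _ e => e := by
      rw [Finsupp.degree_eq_sum, Finsupp.sum_fintype _ _ (fun _ => rfl)]
    exact mem_support_iff.1 hd (h d (by omega))

theorem coeff_Dk (κ : Fin n → ℝ) (p : MvPolynomial (Fin n) ℂ) (d : Fin n →₀ ℕ) :
    coeff d (Dk κ p) = ∑ i, (κ i : ℂ) * (coeff (d + Finsupp.single i 1) p * (d i + 1)) := by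
  unfold Dk
  rw [coeff_sum]
  refine Finset.sum_congr rfl fun i _ => ?_
  rw [coeff_C_mul, coeff_pderiv]

theorem Dk_add (κ : Fin n → ℝ) (p q : MvPolynomial (Fin n) ℂ) :
    Dk κ (p + q) = Dk κ p + Dk κ q := by
  unfold Dk
  simp [mul_add, Finset.sum_add_distrib]

theorem Dk_C (κ : Fin n → ℝ) (c : ℂ) : Dk κ (C c) = 0 := by
  unfold Dk
  simp

theorem Dk_zero (κ : Fin n → ℝ) : Dk κ 0 = 0 := by
  unfold Dk
  simp

theorem Dk_C_mul (κ : Fin n → ℝ) (c : ℂ) (p : MvPolynomial (Fin n) ℂ) :
    Dk κ (C c * p) = C c * Dk κ p := by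
  unfold Dk
  rw [Finset.mul_sum]
  refine Finset.sum_congr rfl fun i _ => ?_
  rw [pderiv_C_mul]
  ring

theorem Dk_mul (κ : Fin n → ℝ) (p q : MvPolynomial (Fin n) ℂ) :
    Dk κ (p * q) = Dk κ p * q + p * Dk κ q := by
  unfold Dk
  rw [Finset.sum_mul, Finset.mul_sum, ← Finset.sum_add_distrib]
  refine Finset.sum_congr rfl fun i _ => ?_
  rw [pderiv_mul]
  ring

theorem Dk_X (κ : Fin n → ℝ) (i : Fin n) : Dk κ (X i) = C (κ i : ℂ) := by
  unfold Dk
  rw [Finset.sum_eq_single i]
  · rw [pderiv_X_self, mul_one]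
  · intro j _ hj
    rw [pderiv_X_of_ne (Ne.symm hj), mul_zero]
  · intro h
    exact absurd (Finset.mem_univ i) h

theorem Dk_sub (κ : Fin n → ℝ) (p q : MvPolynomial (Fin n) ℂ) :
    Dk κ (p - q) = Dk κ p - Dk κ q := by
  unfold Dk
  simp [mul_sub, Finset.sum_sub_distrib]

theorem Dk_sum {ι : Type} (s : Finset ι) (κ : Fin n → ℝ) (p : ι → MvPolynomial (Fin n) ℂ) :
    Dk κ (∑ i ∈ s, p i) = ∑ i ∈ s, Dk κ (p i) := by
  classical
  induction s using Finset.induction_on with
  | empty => simp [Dk_zero]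
  | insert a s ha ih => rw [Finset.sum_insert ha, Finset.sum_insert ha, Dk_add, ih]

theorem Dk_lin (κ l : Fin n → ℝ) : Dk κ (lin l) = C (dot l κ : ℂ) := by
  unfold lin dot
  rw [Dk_sum]
  push_cast
  rw [map_sum]
  refine Finset.sum_congr rfl fun i _ => ?_
  rw [Dk_C_mul, Dk_X, ← C_mul]

theorem Dk_pow (κ : Fin n → ℝ) (p : MvPolynomial (Fin n) ℂ) (h : Dk κ p = 0) (e : ℕ) :
    Dk κ (p ^ e) = 0 := by
  induction e with
  | zero =>
    rw [pow_zero]
    exact Dk_C κ 1
  | succ e ih => rw [pow_succ, Dk_mul, ih, h, zero_mul, mul_zero, add_zero]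

theorem Dk_comm (κ κ' : Fin n → ℝ) (p : MvPolynomial (Fin n) ℂ) :
    Dk κ (Dk κ' p) = Dk κ' (Dk κ p) := by
  induction p using MvPolynomial.induction_on with
  | C a => rw [Dk_C, Dk_C, Dk_zero, Dk_zero]
  | add p q hp hq => rw [Dk_add, Dk_add, Dk_add, Dk_add, hp, hq]
  | mul_X p i hp =>
    rw [Dk_mul, Dk_mul, Dk_add, Dk_add, Dk_mul, Dk_mul, Dk_mul, Dk_mul, Dk_X, Dk_X, Dk_C, Dk_C, hp]
    ring

/-- degree of the derivative -/
theorem td_Dk (κ : Fin n → ℝ) (p : MvPolynomial (Fin n) ℂ) (N : ℕ) (h : p.totalDegree ≤ N + 1) :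
    (Dk κ p).totalDegree ≤ N := by
  rw [td_le_iff] at h ⊢
  intro d hd
  rw [coeff_Dk]
  refine Finset.sum_eq_zero fun i _ => ?_
  rw [h (d + Finsupp.single i 1) (by rw [map_add, Finsupp.degree_single]; omega)]
  ring

theorem Dk_of_td_zero (κ : Fin n → ℝ) (p : MvPolynomial (Fin n) ℂ) (h : p.totalDegree = 0) :
    Dk κ p = 0 := by
  have h' : p.totalDegree ≤ 0 := h.le
  rw [td_le_iff] at h'
  ext d
  rw [coeff_Dk, coeff_zero]
  refine Finset.sum_eq_zero fun i _ => ?_
  rw [h' (d + Finsupp.single i 1) (by rw [map_add, Finsupp.degree_single]; omega)]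
  ring

theorem iter_zero_of_td (κ : Fin n → ℝ) : ∀ (N : ℕ) (p : MvPolynomial (Fin n) ℂ),
    p.totalDegree ≤ N → ∀ J, N < J → (Dk κ)^[J] p = 0 := by
  intro N
  induction N with
  | zero =>
    intro p hp J hJ
    obtain ⟨J, rfl⟩ : ∃ J', J = J' + 1 := ⟨J - 1, by omega⟩
    rw [Function.iterate_succ_apply, Dk_of_td_zero κ p (by omega)]
    clear hJ
    induction J with
    | zero => rfl
    | succ J ih => rw [Function.iterate_succ_apply, Dk_zero, ih]
  | succ N ih =>
    intro p hp J hJ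
    obtain ⟨J, rfl⟩ : ∃ J', J = J' + 1 := ⟨J - 1, by omega⟩
    rw [Function.iterate_succ_apply]
    exact ih _ (td_Dk κ p N hp) J (by omega)

theorem td_iter (κ : Fin n → ℝ) (p : MvPolynomial (Fin n) ℂ) (N J : ℕ)
    (h : p.totalDegree ≤ N + J) : ((Dk κ)^[J] p).totalDegree ≤ N := by
  induction J generalizing p with
  | zero => exact h
  | succ J ih =>
    rw [Function.iterate_succ_apply]
    exact ih _ (td_Dk κ p (N + J) (by omega))

/-- homogeneous components and derivatives -/
theorem hc_Dk (κ : Fin n → ℝ) (p : MvPolynomial (Fin n) ℂ) (m : ℕ) :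
    homogeneousComponent m (Dk κ p) = Dk κ (homogeneousComponent (m + 1) p) := by
  ext d
  rw [coeff_homogeneousComponent, coeff_Dk, coeff_Dk]
  split_ifs with hd
  · refine Finset.sum_congr rfl fun i _ => ?_
    rw [coeff_homogeneousComponent, if_pos]
    rw [map_add, Finsupp.degree_single, hd]
  · symm
    refine Finset.sum_eq_zero fun i _ => ?_
    rw [coeff_homogeneousComponent, if_neg]
    · ring
    · rw [map_add, Finsupp.degree_single]
      omega

theorem hc_zero_Dk (κ : Fin n → ℝ) (p : MvPolynomial (Fin n) ℂ) :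
    Dk κ (homogeneousComponent 0 p) = 0 := by
  rw [homogeneousComponent_zero, Dk_C]

theorem isHom_Dk (κ : Fin n → ℝ) (p : MvPolynomial (Fin n) ℂ) (m : ℕ) (h : p.IsHomogeneous m) :
    (Dk κ p).IsHomogeneous (m - 1) := by
  unfold Dk
  refine IsHomogeneous.sum _ _ _ fun i _ => ?_
  exact (h.pderiv).C_mul _

theorem isHom_iter (κ : Fin n → ℝ) (J : ℕ) : ∀ (p : MvPolynomial (Fin n) ℂ) (m : ℕ),
    p.IsHomogeneous m → ((Dk κ)^[J] p).IsHomogeneous (m - J) := by
  induction J with
  | zero => intro p m h; exact h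
  | succ J ih =>
    intro p m h
    rw [Function.iterate_succ_apply]
    have := ih _ _ (isHom_Dk κ p m h)
    rwa [Nat.sub_sub, add_comm 1 J] at this

/-! ### Taylor formula -/

/-- restriction to the line `x + s κ` -/
noncomputable def line (x κ : Fin n → ℂ) : MvPolynomial (Fin n) ℂ →ₐ[ℂ] Polynomial ℂ :=
  aeval (fun i => Polynomial.C (x i) + Polynomial.C (κ i) * Polynomial.X)

theorem line_X (x κ : Fin n → ℂ) (i : Fin n) :
    line x κ (X i) = Polynomial.C (x i) + Polynomial.C (κ i) * Polynomial.X := by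
  unfold line
  exact aeval_X _ _

theorem line_C (x κ : Fin n → ℂ) (c : ℂ) : line x κ (C c) = Polynomial.C c := by
  unfold line
  exact aeval_C _ _

theorem line_eval (x κ : Fin n → ℂ) (s : ℂ) (f : MvPolynomial (Fin n) ℂ) :
    (line x κ f).eval s = eval (fun i => x i + s * κ i) f := by
  induction f using MvPolynomial.induction_on with
  | C a =>
    unfold line
    simp
  | add p q hp hq => rw [map_add, Polynomial.eval_add, hp, hq, map_add]
  | mul_X p i hp =>
    rw [map_mul, Polynomial.eval_mul, hp, map_mul]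
    congr 1
    unfold line
    simp
    ring

theorem line_deriv (x : Fin n → ℂ) (κ : Fin n → ℝ) (f : MvPolynomial (Fin n) ℂ) :
    Polynomial.derivative (line x (cx κ) f) = line x (cx κ) (Dk κ f) := by
  induction f using MvPolynomial.induction_on with
  | C a => rw [Dk_C, map_zero, line_C, Polynomial.derivative_C]
  | add p q hp hq => rw [map_add, map_add, hp, hq, Dk_add, map_add]
  | mul_X p i hp =>
    rw [map_mul, Polynomial.derivative_mul, hp, Dk_mul, map_add, map_mul, map_mul, Dk_X,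
      line_X, line_C]
    congr 2
    rw [Polynomial.derivative_add, Polynomial.derivative_C, zero_add,
      Polynomial.derivative_C_mul, Polynomial.derivative_X, mul_one]
    rfl

theorem line_iter (x : Fin n → ℂ) (κ : Fin n → ℝ) (J : ℕ) : ∀ (f : MvPolynomial (Fin n) ℂ),
    Polynomial.derivative^[J] (line x (cx κ) f) = line x (cx κ) ((Dk κ)^[J] f) := by
  induction J with
  | zero => intro f; rfl
  | succ J ih =>
    intro f
    rw [Function.iterate_succ_apply, line_deriv, ih, Function.iterate_succ_apply]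

theorem line_coeff (x : Fin n → ℂ) (κ : Fin n → ℝ) (J : ℕ) (f : MvPolynomial (Fin n) ℂ) :
    (line x (cx κ) f).coeff J = ((J.factorial : ℂ))⁻¹ * eval x ((Dk κ)^[J] f) := by
  have h1 := Polynomial.coeff_iterate_derivative (p := line x (cx κ) f) (k := J) 0
  rw [line_iter, zero_add, Nat.descFactorial_self] at h1
  have h2 : (line x (cx κ) ((Dk κ)^[J] f)).coeff 0 = eval x ((Dk κ)^[J] f) := by
    rw [Polynomial.coeff_zero_eq_eval_zero, line_eval]
    simp
  rw [h2, nsmul_eq_mul] at h1
  rw [h1]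
  have : (J.factorial : ℂ) ≠ 0 := by exact_mod_cast Nat.factorial_ne_zero J
  field_simp

/-- Taylor formula -/
theorem taylor (x : Fin n → ℂ) (κ : Fin n → ℝ) (f : MvPolynomial (Fin n) ℂ) (N : ℕ)
    (hN : f.totalDegree ≤ N) (s : ℂ) :
    eval (fun i => x i + s * cx κ i) f =
      ∑ J ∈ Finset.range (N + 1), s ^ J * (((J.factorial : ℂ))⁻¹ * eval x ((Dk κ)^[J] f)) := by
  rw [← line_eval, Polynomial.eval_eq_sum_range' (n := N + 1)]
  · refine Finset.sum_congr rfl fun J _ => ?_
    rw [line_coeff]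
    ring
  · rw [Nat.lt_succ_iff, Polynomial.natDegree_le_iff_coeff_eq_zero]
    intro J hJ
    rw [line_coeff, iter_zero_of_td κ N f hN J hJ]
    simp

/-- evaluation of homogeneous polynomials at multiples -/
theorem hom_eval (p : MvPolynomial (Fin n) ℂ) (m : ℕ) (h : p.IsHomogeneous m) (c : ℂ)
    (x : Fin n → ℂ) : eval (fun i => c * x i) p = c ^ m * eval x p := by
  rw [eval_eq', eval_eq', Finset.mul_sum]
  refine Finset.sum_congr rfl fun d hd => ?_
  have h1 : ∏ i, (c * x i) ^ d i = c ^ m * ∏ i, x i ^ d i := by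
    simp_rw [mul_pow]
    rw [Finset.prod_mul_distrib, Finset.prod_pow_eq_pow_sum]
    congr 2
    have := h (mem_support_iff.1 hd)
    rw [Finsupp.weight_apply, Finsupp.sum_fintype] at this
    · simpa using this
    · intro i; simp
  rw [h1]
  ring

theorem eval_eq_hc (p : MvPolynomial (Fin n) ℂ) (N : ℕ) (h : p.totalDegree ≤ N) (x : Fin n → ℂ) :
    eval x p = ∑ m ∈ Finset.range (N + 1), eval x (homogeneousComponent m p) := by
  conv_lhs => rw [← sum_homogeneousComponent p]
  rw [map_sum]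
  refine Finset.sum_subset ?_ ?_
  · intro m hm
    rw [Finset.mem_range] at hm ⊢
    omega
  · intro m hm hm2
    rw [Finset.mem_range] at hm hm2
    rw [homogeneousComponent_eq_zero m p (by omega), map_zero]

/-- evaluation of a component at a dilated point -/
theorem eval_scaled (p : MvPolynomial (Fin n) ℂ) (N : ℕ) (h : p.totalDegree ≤ N) (c : ℂ)
    (x : Fin n → ℂ) : eval (fun i => c * x i) p =
      ∑ m ∈ Finset.range (N + 1), c ^ m * eval x (homogeneousComponent m p) := by
  rw [eval_eq_hc p N h]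
  refine Finset.sum_congr rfl fun m _ => ?_
  exact hom_eval _ m (homogeneousComponent_isHomogeneous m p) c x

end Pool.Agent.W565.EC
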