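import Pool.Agent.W565.EC.Clos

/-!
# EC project: Newton scaling (`S_newt`)
-/

set_option autoImplicit false

namespace Pool.Agent.W565.EC

open MvPolynomial Filter Topology
open Pool.Agent.W996.EC

variable {n : ℕ}

theorem lin_ne_zero (l : Fin n → ℝ) (hl : l ≠ 0) : lin l ≠ 0 := by
  intro h
  have h1 := eval_lin l (cx l)
  rw [h, map_zero] at h1
  unfold cx at h1
  have h2 : (∑ i, l i * l i : ℝ) = 0 := by
    have h3 : ((∑ i, l i * l i : ℝ) : ℂ) = 0 := by
      push_cast
      exact h1.symm
    exact_mod_cast h3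
  apply hl
  funext i
  have h3 := (Finset.sum_eq_zero_iff_of_nonneg (fun i _ => mul_self_nonneg (l i))).1 h2 i
    (Finset.mem_univ i)
  exact mul_self_eq_zero.1 h3

theorem lin_hom (l : Fin n → ℝ) : (lin l).IsHomogeneous 1 := by
  unfold lin
  refine IsHomogeneous.sum _ _ _ fun i _ => ?_
  exact (isHomogeneous_X ℂ i).C_mul _

theorem clin_hom (c : ℂ) (l : Fin n → ℝ) (e : ℕ) : (C c * lin l ^ e).IsHomogeneous e := by
  have := ((lin_hom l).pow e).C_mul c
  rwa [one_mul] at this

/-- the pieces -/
noncomputable def qq (κ : Fin n → ℝ) (p : MvPolynomial (Fin n) ℂ) (i m : ℕ) :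
    MvPolynomial (Fin n) ℂ :=
  homogeneousComponent m (C (Complex.I ^ i * ((i.factorial : ℂ))⁻¹) * (Dk κ)^[i] p)

theorem qq_eq (κ : Fin n → ℝ) (p : MvPolynomial (Fin n) ℂ) (i m : ℕ) :
    qq κ p i m = C (Complex.I ^ i * ((i.factorial : ℂ))⁻¹) *
      homogeneousComponent m ((Dk κ)^[i] p) := by
  unfold qq
  rw [homogeneousComponent_C_mul]

theorem cst_ne (i : ℕ) : Complex.I ^ i * ((i.factorial : ℂ))⁻¹ ≠ 0 := by
  refine mul_ne_zero (pow_ne_zero _ Complex.I_ne_zero) (inv_ne_zero ?_)
  exact_mod_cast Nat.factorial_ne_zero i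

theorem qq_eq_zero_iff (κ : Fin n → ℝ) (p : MvPolynomial (Fin n) ℂ) (i m : ℕ) :
    qq κ p i m = 0 ↔ homogeneousComponent m ((Dk κ)^[i] p) = 0 := by
  rw [qq_eq, mul_eq_zero, C_eq_zero]
  constructor
  · rintro (h | h)
    · exact absurd h (cst_ne i)
    · exact h
  · exact Or.inr

theorem qq_hom (κ : Fin n → ℝ) (p : MvPolynomial (Fin n) ℂ) (i m : ℕ) :
    (qq κ p i m).IsHomogeneous m := homogeneousComponent_isHomogeneous _ _

/-- expansion -/
theorem expand (κ : Fin n → ℝ) (p : MvPolynomial (Fin n) ℂ) (N : ℕ) (hN : p.totalDegree ≤ N)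
    (lam t : ℝ) (x : Fin n → ℂ) :
    eval x (tr lam (fun i => t * κ i) p) = ∑ i ∈ Finset.range (N + 1),
      ∑ m ∈ Finset.range (N + 1), (t : ℂ) ^ i * (lam : ℂ) ^ m * eval x (qq κ p i m) := by
  rw [eval_tr]
  have e1 : (fun i => ((lam : ℝ) : ℂ) * x i + Complex.I * ((t * κ i : ℝ) : ℂ)) =
      fun i => (fun i => (lam : ℂ) * x i) i + (Complex.I * (t : ℂ)) * cx κ i := by
    funext i
    unfold cx
    push_cast
    ring
  rw [e1, taylor _ κ p N hN]
  refine Finset.sum_congr rfl fun i hi => ?_
  have h1 : ((Dk κ)^[i] p).totalDegree ≤ N := td_iter κ p N i (by omega)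
  rw [eval_scaled _ N h1, Finset.mul_sum, Finset.mul_sum]
  refine Finset.sum_congr rfl fun m _ => ?_
  rw [qq_eq, map_mul, eval_C, mul_pow]
  ring

theorem t_newt (h' : S_pt) : S_newt := by
  classical
  intro n e c l p κ he hc hl hs hκ hne
  obtain ⟨s, hsdef⟩ : ∃ s : MvPolynomial (Fin n) ℂ, s = p - C c * lin l ^ e := ⟨_, rfl⟩
  rw [← hsdef] at hs
  have hp : p = C c * lin l ^ e + s := by rw [hsdef]; ring
  have hDl : Dk κ (C c * lin l ^ e) = 0 := by
    rw [Dk_C_mul, Dk_pow κ (lin l) (by rw [Dk_lin, hκ]; simp) e, mul_zero]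
  have htd : p.totalDegree ≤ e := by
    rw [hp]
    refine (totalDegree_add _ _).trans (max_le (clin_hom c l e).totalDegree_le hs.le)
  have hD1 : Dk κ p = Dk κ s := by
    rw [hp, Dk_add, hDl, zero_add]
  have hiter : ∀ i, 1 ≤ i → (Dk κ)^[i] p = (Dk κ)^[i] s := by
    intro i hi
    obtain ⟨i, rfl⟩ : ∃ i', i = i' + 1 := ⟨i - 1, by omega⟩
    rw [Function.iterate_succ_apply, Function.iterate_succ_apply, hD1]
  -- range of nonzero pieces
  have hrange : ∀ i m, 1 ≤ i → qq κ p i m ≠ 0 → m + i + 1 ≤ e := by
    intro i m hi hq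
    by_contra hcon
    apply hq
    rw [qq_eq_zero_iff, hiter i hi]
    by_cases h1 : i ≤ e - 1
    · refine homogeneousComponent_eq_zero _ _ ?_
      have := td_iter κ s (e - 1 - i) i (by omega)
      omega
    · rw [iter_zero_of_td κ (e - 1) s (by omega) i (by omega), map_zero]
  -- the set of nonzero pieces
  set S : Finset (ℕ × ℕ) := (Finset.range (e + 1) ×ˢ Finset.range (e + 1)).filter
    (fun a => 1 ≤ a.1 ∧ qq κ p a.1 a.2 ≠ 0) with hSdef
  have hSmem : ∀ i m, (i, m) ∈ S ↔ 1 ≤ i ∧ qq κ p i m ≠ 0 := by
    intro i m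
    rw [hSdef, Finset.mem_filter, Finset.mem_product, Finset.mem_range, Finset.mem_range]
    constructor
    · exact fun h => h.2
    · intro h
      have := hrange i m h.1 h.2
      exact ⟨⟨by show i < e + 1; omega, by show m < e + 1; omega⟩, h⟩
  have hSne : S.Nonempty := by
    by_contra hcon
    rw [Finset.not_nonempty_iff_eq_empty] at hcon
    apply hne
    have h1 : ∀ m, homogeneousComponent m (Dk κ p) = 0 := by
      intro m
      by_contra h2
      have : (1, m) ∈ S := (hSmem 1 m).2 ⟨le_rfl, fun h3 => h2 ((qq_eq_zero_iff κ p 1 m).1 h3)⟩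
      rw [hcon] at this
      simp at this
    rw [← sum_homogeneousComponent (Dk κ p)]
    exact Finset.sum_eq_zero fun m _ => h1 m
  obtain ⟨a0, ha0, hmax⟩ := Finset.exists_max_image S
    (fun a => (a.1 : ℝ) / ((e : ℝ) - (a.2 : ℝ))) hSne
  obtain ⟨i0, m0⟩ := a0
  have h0 := (hSmem i0 m0).1 ha0
  have h0r := hrange i0 m0 h0.1 h0.2
  set θ : ℝ := (i0 : ℝ) / ((e : ℝ) - (m0 : ℝ)) with hθ
  have hden0 : (0 : ℝ) < (e : ℝ) - (m0 : ℝ) := by
    have : (m0 : ℝ) + i0 + 1 ≤ e := by exact_mod_cast h0r
    have h2 : (0 : ℝ) ≤ i0 := Nat.cast_nonneg _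
    linarith
  have hθpos : 0 < θ := by
    have : (0 : ℝ) < i0 := by exact_mod_cast (by omega : 0 < i0)
    positivity
  have hmax' : ∀ i m, (i, m) ∈ S → (i : ℝ) ≤ θ * ((e : ℝ) - m) := by
    intro i m him
    have h1 := hmax (i, m) him
    have h2 := (hSmem i m).1 him
    have h3 := hrange i m h2.1 h2.2
    have h4 : (0 : ℝ) < (e : ℝ) - (m : ℝ) := by
      have : (m : ℝ) + i + 1 ≤ e := by exact_mod_cast h3
      have h2 : (0 : ℝ) ≤ i := Nat.cast_nonneg _
      linarith
    exact (div_le_iff₀ h4).1 h1
  -- maximisers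
  set M : Finset (ℕ × ℕ) := S.filter (fun a => (a.1 : ℝ) = θ * ((e : ℝ) - a.2)) with hMdef
  have hM0 : (i0, m0) ∈ M := by
    rw [hMdef, Finset.mem_filter]
    refine ⟨ha0, ?_⟩
    show (i0 : ℝ) = θ * ((e : ℝ) - m0)
    rw [hθ]
    field_simp
  have hMS : ∀ a ∈ M, a ∈ S ∧ (a.1 : ℝ) = θ * ((e : ℝ) - a.2) := fun a ha =>
    Finset.mem_filter.1 ha
  set r : MvPolynomial (Fin n) ℂ := ∑ a ∈ M, qq κ p a.1 a.2 with hr
  have hhc0 : homogeneousComponent m0 r = qq κ p i0 m0 := by
    rw [hr, map_sum, Finset.sum_eq_single (i0, m0)]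
    · exact homogeneousComponent_eq_self (qq_hom κ p i0 m0)
    · intro a ha hne
      rw [homogeneousComponent_of_mem (qq_hom κ p a.1 a.2), if_neg]
      intro h2
      apply hne
      have h3 := (hMS a ha).2
      have h4 := (hMS _ hM0).2
      have h5 : (a.1 : ℝ) = (i0 : ℝ) := by
        rw [h3, ← h2]
        exact h4.symm
      exact Prod.ext (by exact_mod_cast h5) h2.symm
    · intro h
      exact absurd hM0 h
  have hr0 : r ≠ 0 := by
    intro h
    rw [h, map_zero] at hhc0
    exact h0.2 hhc0.symm
  have hrtd : r.totalDegree + 2 ≤ e := by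
    have h1 : r.totalDegree ≤ e - 2 := by
      rw [hr]
      refine totalDegree_finsetSum_le fun a ha => ?_
      have h2 := (hSmem a.1 a.2).1 (hMS a ha).1
      have h3 := hrange a.1 a.2 h2.1 h2.2
      refine (qq_hom κ p a.1 a.2).totalDegree_le.trans ?_
      omega
    omega
  refine ⟨r, hr0, hrtd, ?_, ?_, ?_⟩
  · -- the limit
    refine ⟨?_, fun j => ((j : ℝ) + 1) ^ θ, fun j => fun i => ((j : ℝ) + 1) * κ i,
      fun j => (((((j : ℝ) + 1) ^ (θ * e) : ℝ)) : ℂ)⁻¹, fun j => by positivity, ?_, ?_⟩
    · intro h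
      have h1 : homogeneousComponent e (C c * lin l ^ e + r) = 0 := by rw [h, map_zero]
      rw [map_add, homogeneousComponent_eq_self (clin_hom c l e),
        homogeneousComponent_eq_zero e r (by omega), add_zero] at h1
      exact mul_ne_zero (by rwa [Ne, C_eq_zero]) (pow_ne_zero _ (lin_ne_zero l hl)) h1
    · exact (tendsto_rpow_atTop hθpos).comp
        (tendsto_atTop_add_const_right _ _ tendsto_natCast_atTop_atTop)
    · refine h' n p.totalDegree _ _ (fun j => td_C_tr _ _ _ _) fun x => ?_
      -- the terms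
      set T : ℕ × ℕ → ℕ → ℂ := fun a j =>
        ((((j : ℝ) + 1) ^ ((a.1 : ℝ) - θ * ((e : ℝ) - a.2)) : ℝ) : ℂ) *
          eval x (qq κ p a.1 a.2) with hT
      have hterm : ∀ j : ℕ, eval x (C ((((((j : ℝ) + 1) ^ (θ * e) : ℝ)) : ℂ)⁻¹) *
          tr (((j : ℝ) + 1) ^ θ) (fun i => ((j : ℝ) + 1) * κ i) p) =
          ∑ a ∈ Finset.range (e + 1) ×ˢ Finset.range (e + 1), T a j := by
        intro j
        have ht : (0 : ℝ) < (j : ℝ) + 1 := by positivity
        rw [map_mul, eval_C, expand κ p e htd, Finset.mul_sum, Finset.sum_product]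
        refine Finset.sum_congr rfl fun i _ => ?_
        rw [Finset.mul_sum]
        refine Finset.sum_congr rfl fun m _ => ?_
        rw [hT]
        show _ = ((((j : ℝ) + 1) ^ ((i : ℝ) - θ * ((e : ℝ) - m)) : ℝ) : ℂ) * eval x (qq κ p i m)
        have e1 : ((j : ℝ) + 1) ^ ((i : ℝ) - θ * ((e : ℝ) - m)) =
            (((j : ℝ) + 1) ^ (θ * e))⁻¹ * (((j : ℝ) + 1) ^ i * ((((j : ℝ) + 1) ^ θ) ^ m)) := by
          have e2 : ((j : ℝ) + 1) ^ i * ((((j : ℝ) + 1) ^ θ) ^ m) =
              ((j : ℝ) + 1) ^ ((i : ℝ) + θ * m) := by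
            rw [Real.rpow_add ht, Real.rpow_natCast, ← Real.rpow_mul_natCast ht.le]
          rw [e2, ← Real.rpow_neg ht.le, ← Real.rpow_add ht]
          congr 1
          ring
        rw [e1]
        push_cast
        ring
      simp only [hterm]
      have hlimt : ∀ a ∈ Finset.range (e + 1) ×ˢ Finset.range (e + 1),
          Tendsto (T a) atTop (𝓝 (if a = (0, e) then eval x (C c * lin l ^ e) else
            if a ∈ M then eval x (qq κ p a.1 a.2) else 0)) := by
        rintro ⟨i, m⟩ ha
        rw [Finset.mem_product, Finset.mem_range, Finset.mem_range] at ha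
        have hneg : ∀ y : ℝ, y < 0 → ∀ z : ℂ,
            Tendsto (fun j : ℕ => ((((j : ℝ) + 1) ^ y : ℝ) : ℂ) * z) atTop (𝓝 0) := by
          intro y hy z
          have h1 : Tendsto (fun j : ℕ => ((j : ℝ) + 1) ^ y) atTop (𝓝 0) := by
            have h2 := (tendsto_rpow_neg_atTop (y := -y) (by linarith)).comp
              (tendsto_atTop_add_const_right _ (1 : ℝ)
                (tendsto_natCast_atTop_atTop (R := ℝ)))
            rw [neg_neg] at h2
            exact h2
          have h3 : Tendsto (fun j : ℕ => ((((j : ℝ) + 1) ^ y : ℝ) : ℂ)) atTop (𝓝 0) := by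
            have := (Complex.continuous_ofReal.tendsto 0).comp h1
            rw [Complex.ofReal_zero] at this
            exact this
          have := h3.mul_const z
          rwa [zero_mul] at this
        have hzero : ∀ y : ℝ, y = 0 → ∀ z : ℂ,
            Tendsto (fun j : ℕ => ((((j : ℝ) + 1) ^ y : ℝ) : ℂ) * z) atTop (𝓝 z) := by
          intro y hy z
          subst hy
          simp only [Real.rpow_zero, Complex.ofReal_one, one_mul]
          exact tendsto_const_nhds
        by_cases hi : i = 0
        · subst hi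
          by_cases hm : m = e
          · subst hm
            rw [if_pos rfl]
            have h1 : qq κ p 0 m = C c * lin l ^ m := by
              rw [qq_eq]
              simp only [pow_zero, Nat.factorial_zero, Nat.cast_one, inv_one, mul_one, C_1,
                one_mul, Function.iterate_zero, id_eq]
              rw [hp, map_add, homogeneousComponent_eq_self (clin_hom c l m),
                homogeneousComponent_eq_zero m s hs, add_zero]
            have := hzero (((0 : ℕ) : ℝ) - θ * ((m : ℝ) - m)) (by simp) (eval x (qq κ p 0 m))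
            rw [h1] at this
            rw [hT]
            simp only [h1]
            exact this
          · rw [if_neg (by
              intro h
              exact hm (Prod.mk.inj h).2), if_neg (by
              intro h
              have := (hSmem 0 m).1 (hMS _ h).1
              omega)]
            refine hneg (((0 : ℕ) : ℝ) - θ * ((e : ℝ) - m)) ?_ _
            have : (m : ℝ) < e := by
              have : m < e := by
                have := ha.2
                change m < e + 1 at this
                omega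
              exact_mod_cast this
            have h2 : 0 < θ * ((e : ℝ) - m) := mul_pos hθpos (by linarith)
            push_cast
            linarith
        · rw [if_neg (by
            intro h
            exact hi (Prod.mk.inj h).1)]
          by_cases hq : qq κ p i m = 0
          · have h1 : (fun j => T (i, m) j) = fun _ => 0 := by
              funext j
              rw [hT]
              show _ * eval x (qq κ p i m) = 0
              rw [hq, map_zero, mul_zero]
            have h2 : (if (i, m) ∈ M then eval x (qq κ p (i, m).1 (i, m).2) else 0) = 0 := by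
              split_ifs
              · show eval x (qq κ p i m) = 0
                rw [hq, map_zero]
              · rfl
            rw [h2]
            show Tendsto (fun j => T (i, m) j) atTop (𝓝 0)
            rw [h1]
            exact tendsto_const_nhds
          · have hS : (i, m) ∈ S := (hSmem i m).2 ⟨by omega, hq⟩
            have hle := hmax' i m hS
            by_cases heq : (i : ℝ) = θ * ((e : ℝ) - m)
            · rw [if_pos (Finset.mem_filter.2 ⟨hS, heq⟩)]
              exact hzero ((i : ℝ) - θ * ((e : ℝ) - m)) (by linarith) _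
            · rw [if_neg (fun h => heq (hMS _ h).2)]
              refine hneg ((i : ℝ) - θ * ((e : ℝ) - m)) ?_ _
              have := lt_of_le_of_ne hle heq
              linarith
      have hfin := tendsto_finsetSum _ hlimt
      have hval : ∑ a ∈ Finset.range (e + 1) ×ˢ Finset.range (e + 1),
          (if a = (0, e) then eval x (C c * lin l ^ e) else
            if a ∈ M then eval x (qq κ p a.1 a.2) else 0) = eval x (C c * lin l ^ e + r) := by
        have h0e : ((0, e) : ℕ × ℕ) ∈ Finset.range (e + 1) ×ˢ Finset.range (e + 1) := by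
          rw [Finset.mem_product, Finset.mem_range, Finset.mem_range]
          exact ⟨by show 0 < e + 1; omega, by show e < e + 1; omega⟩
        have h0M : ((0, e) : ℕ × ℕ) ∉ M := by
          intro h
          have := (hSmem 0 e).1 (hMS _ h).1
          omega
        have h1 : ∀ a ∈ Finset.range (e + 1) ×ˢ Finset.range (e + 1),
            (if a = (0, e) then eval x (C c * lin l ^ e) else
              if a ∈ M then eval x (qq κ p a.1 a.2) else 0) =
            (if a = (0, e) then eval x (C c * lin l ^ e) else 0) +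
              (if a ∈ M then eval x (qq κ p a.1 a.2) else 0) := by
          intro a _
          split_ifs with h2 h3
          · rw [h2] at h3
            exact absurd h3 h0M
          · rw [add_zero]
          · rw [zero_add]
          · rw [add_zero]
        rw [Finset.sum_congr rfl h1, Finset.sum_add_distrib, Finset.sum_ite_eq', if_pos h0e,
          map_add, hr, map_sum, ← Finset.sum_filter]
        congr 1
        refine Finset.sum_congr ?_ fun _ _ => rfl
        ext a
        rw [Finset.mem_filter]
        constructor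
        · exact fun h => h.2
        · intro h
          refine ⟨?_, h⟩
          have := (hMS a h).1
          rw [hSdef, Finset.mem_filter] at this
          exact this.1
      rw [hval] at hfin
      exact hfin
  · -- invariance under `κ`
    rw [hr, Dk_sum]
    refine Finset.sum_eq_zero fun a ha => ?_
    obtain ⟨i, m⟩ := a
    obtain ⟨haS, hae⟩ := hMS _ ha
    have h2 := (hSmem i m).1 haS
    have h3 := hrange i m h2.1 h2.2
    show Dk κ (qq κ p i m) = 0
    rw [qq_eq, Dk_C_mul]
    cases m with
    | zero => rw [hc_zero_Dk, mul_zero]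
    | succ m =>
      rw [← hc_Dk]
      by_contra hcon
      have h4 : qq κ p (i + 1) m ≠ 0 := by
        intro h5
        apply hcon
        rw [qq_eq_zero_iff, Function.iterate_succ_apply'] at h5
        rw [h5, mul_zero]
      have h5 := hmax' (i + 1) m ((hSmem _ _).2 ⟨by omega, h4⟩)
      change (i : ℝ) = θ * ((e : ℝ) - ((m + 1 : ℕ) : ℝ)) at hae
      push_cast at h5 hae
      have h6 : (m : ℝ) + 1 + i + 1 ≤ e := by exact_mod_cast h3
      -- `1 ≤ θ`, but `i < e - m`
      have h7 : 1 ≤ θ := by linarith
      have h8 : (i : ℝ) < (e : ℝ) - (m + 1) := by linarith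
      have h9 : (e : ℝ) - (m + 1) ≤ θ * ((e : ℝ) - (m + 1)) := by
        have h10 : (0 : ℝ) ≤ (e : ℝ) - (m + 1) := by
          have : (0 : ℝ) ≤ i := Nat.cast_nonneg _
          linarith
        nlinarith
      linarith
  · -- invariance under `κ'`
    intro κ' _ hκ'
    rw [hr, Dk_sum]
    refine Finset.sum_eq_zero fun a ha => ?_
    obtain ⟨i, m⟩ := a
    show Dk κ' (qq κ p i m) = 0
    have hcomm : ∀ i, Dk κ' ((Dk κ)^[i] p) = 0 := by
      intro i
      induction i with
      | zero => exact hκ'
      | succ i ih => rw [Function.iterate_succ_apply', Dk_comm, ih, Dk_zero]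
    rw [qq_eq, Dk_C_mul]
    cases m with
    | zero => rw [hc_zero_Dk, mul_zero]
    | succ m => rw [← hc_Dk, hcomm, map_zero, mul_zero]

end Pool.Agent.W565.EC
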